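import Pool.Agent.H261R3.LN.LStmts

/-! # Task LBVar of the project LM (MP_e25190_gt): paths of bounded variation in compact
Lipschitz neighbourhood retracts are homotopic to Lipschitz paths with controlled constant -/

set_option autoImplicit false

open scoped NNReal ENNReal unitInterval

namespace Pool.Agent.H337R3.LN

open Pool.Agent.H261R3.LN
open Pool.Agent.H261R3.LH (IsLNR clip clip_nonneg)
open Finset

theorem clip_le_one (x : ℝ) : clip x ≤ 1 := max_le zero_le_one (min_le_left _ _)

theorem clip_of_nonpos {x : ℝ} (h : x ≤ 0) : clip x = 0 := by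
  unfold clip
  rw [min_eq_right (h.trans zero_le_one), max_eq_left h]

theorem clip_of_one_le {x : ℝ} (h : 1 ≤ x) : clip x = 1 := by
  unfold clip
  rw [min_eq_left h, max_eq_right zero_le_one]

theorem clip_lip (x y : ℝ) : |clip x - clip y| ≤ |x - y| := by
  have e1 : |max (min 1 x) 0 - max (min 1 y) 0| ≤ |min 1 x - min 1 y| :=
    abs_max_sub_max_le_abs (min 1 x) (min 1 y) 0
  have e2 : |min 1 x - min 1 y| ≤ |x - y| := by
    refine (abs_min_sub_min_le_max 1 x 1 y).trans (le_of_eq ?_)
    rw [sub_self, abs_zero, max_eq_right (abs_nonneg _)]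
  unfold clip
  rw [max_comm 0 (min 1 x), max_comm 0 (min 1 y)]
  exact e1.trans e2

theorem clip_cont : Continuous clip := by
  unfold clip
  fun_prop

/-- Piecewise linear curve with controlled speed. -/
theorem build {E : Type} [NormedAddCommGroup E] [NormedSpace ℝ E] (u : ℝ → E) (t d : ℕ → ℝ)
    (K η ρ : ℝ) (hK : 0 ≤ K) (hη : 0 < η) (hρ : 0 ≤ ρ) (hd : ∀ j, 0 ≤ d j)
    (hu : ∀ j, ‖u (t (j + 1)) - u (t j)‖ ≤ K * d j) (hmono : ∀ j, t j ≤ t (j + 1))
    (hosc : ∀ j, ∀ s ∈ Set.Icc (t j) (t (j + 1)), ∀ s' ∈ Set.Icc (t j) (t (j + 1)),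
      ‖u s - u s'‖ ≤ ρ) (n : ℕ) :
    ∃ (v : ℝ → E) (φ : ℝ → ℝ), Continuous φ ∧ (∀ s s', ‖v s - v s'‖ ≤ K * |s - s'|) ∧
      (∀ s, s ≤ 0 → v s = u (t 0) ∧ φ s = t 0) ∧
      (∀ s, ∑ j ∈ range n, (d j + η) ≤ s → v s = u (t n) ∧ φ s = t n) ∧
      (∀ s, φ s ∈ Set.Icc (t 0) (t n)) ∧ ∀ s, ‖v s - u (φ s)‖ ≤ 2 * ρ := by
  induction n with
  | zero =>
    refine ⟨fun _ => u (t 0), fun _ => t 0, continuous_const, fun s s' => ?_, fun s _ => ⟨rfl, rfl⟩,
      fun s _ => ⟨rfl, rfl⟩, fun s => ⟨le_rfl, le_rfl⟩, fun s => ?_⟩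
    · rw [sub_self, norm_zero]
      positivity
    · rw [sub_self, norm_zero]
      positivity
  | succ n ih =>
    obtain ⟨v, φ, hφ, hv, h0, h1, hmem, hclose⟩ := ih
    set Λ : ℝ := ∑ j ∈ range n, (d j + η) with hΛ
    have hΛ0 : 0 ≤ Λ := sum_nonneg fun j _ => by linarith [hd j]
    have hdn : 0 < d n + η := by linarith [hd n]
    set c : ℝ → ℝ := fun s => clip ((s - Λ) / (d n + η)) with hc
    have hc0 : ∀ s, s ≤ Λ → c s = 0 := fun s hs =>
      clip_of_nonpos (div_nonpos_of_nonpos_of_nonneg (by linarith) hdn.le)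
    have hc1 : ∀ s, Λ + (d n + η) ≤ s → c s = 1 := fun s hs =>
      clip_of_one_le ((one_le_div hdn).2 (by linarith))
    have hcn : ∀ s, 0 ≤ c s := fun s => clip_nonneg _
    have hcl : ∀ s, c s ≤ 1 := fun s => clip_le_one _
    have hcL : ∀ s s', |c s - c s'| ≤ |s - s'| / (d n + η) := by
      intro s s'
      refine (clip_lip _ _).trans (le_of_eq ?_)
      rw [← sub_div, abs_div, abs_of_pos hdn]
      congr 2
      ring
    have hright : ∀ s s', Λ ≤ s → Λ ≤ s' →
        ‖(v s + c s • (u (t (n + 1)) - u (t n))) - (v s' + c s' • (u (t (n + 1)) - u (t n)))‖ ≤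
          K * |s - s'| := by
      intro s s' hs hs'
      rw [(h1 s hs).1, (h1 s' hs').1, add_sub_add_left_eq_sub, ← sub_smul, norm_smul,
        Real.norm_eq_abs]
      calc |c s - c s'| * ‖u (t (n + 1)) - u (t n)‖ ≤ (|s - s'| / (d n + η)) * (K * (d n + η)) := by
            refine mul_le_mul (hcL s s') ((hu n).trans ?_) (norm_nonneg _) (by positivity)
            exact mul_le_mul_of_nonneg_left (by linarith) hK
        _ = K * |s - s'| := by field_simp
    have hleft : ∀ s s', s ≤ Λ → s' ≤ Λ →
        ‖(v s + c s • (u (t (n + 1)) - u (t n))) - (v s' + c s' • (u (t (n + 1)) - u (t n)))‖ ≤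
          K * |s - s'| := by
      intro s s' hs hs'
      rw [hc0 s hs, hc0 s' hs', zero_smul, add_zero, add_zero]
      exact hv s s'
    have hmix : ∀ s s', s ≤ Λ → Λ ≤ s' →
        ‖(v s + c s • (u (t (n + 1)) - u (t n))) - (v s' + c s' • (u (t (n + 1)) - u (t n)))‖ ≤
          K * |s - s'| := by
      intro s s' hs hs'
      have e1 := hleft s Λ hs le_rfl
      have e2 := hright Λ s' le_rfl hs'
      refine (norm_sub_le_norm_sub_add_norm_sub _ (v Λ + c Λ • (u (t (n + 1)) - u (t n))) _).trans
        ((add_le_add e1 e2).trans (le_of_eq ?_))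
      rw [abs_of_nonpos (by linarith), abs_of_nonpos (by linarith), abs_of_nonpos (by linarith)]
      ring
    refine ⟨fun s => v s + c s • (u (t (n + 1)) - u (t n)),
      fun s => φ s + c s * (t (n + 1) - t n), ?_, ?_, ?_, ?_, ?_, ?_⟩
    · have : Continuous c := clip_cont.comp ((continuous_id.sub continuous_const).div_const _)
      exact hφ.add (this.mul continuous_const)
    · intro s s'
      rcases le_total s Λ with hs | hs <;> rcases le_total s' Λ with hs' | hs'
      · exact hleft s s' hs hs'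
      · exact hmix s s' hs hs'
      · have := hmix s' s hs' hs
        rw [norm_sub_rev, abs_sub_comm]
        exact this
      · exact hright s s' hs hs'
    · intro s hs
      have e := hc0 s (hs.trans hΛ0)
      simp only [e, zero_smul, zero_mul, add_zero]
      exact h0 s hs
    · intro s hs
      rw [sum_range_succ, ← hΛ] at hs
      have e := hc1 s hs
      have e2 := h1 s (by linarith)
      simp only [e, one_smul, one_mul, e2.1, e2.2, add_sub_cancel]
      trivial
    · intro s
      have a := hmem s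
      have b := hmono n
      rcases le_total s Λ with hs | hs
      · simp only [hc0 s hs, zero_mul, add_zero]
        exact ⟨a.1, a.2.trans b⟩
      · simp only [(h1 s hs).2]
        have a1 := (hmem s).1
        rw [(h1 s hs).2] at a1
        constructor
        · have := mul_nonneg (hcn s) (sub_nonneg.2 b)
          linarith
        · have := mul_le_mul_of_nonneg_right (hcl s) (sub_nonneg.2 b)
          linarith
    · intro s
      rcases le_total s Λ with hs | hs
      · simp only [hc0 s hs, zero_mul, add_zero, zero_smul]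
        exact hclose s
      · simp only [(h1 s hs).1, (h1 s hs).2]
        have b := hmono n
        have m1 : t n + c s * (t (n + 1) - t n) ∈ Set.Icc (t n) (t (n + 1)) := by
          constructor
          · have := mul_nonneg (hcn s) (sub_nonneg.2 b)
            linarith
          · have := mul_le_mul_of_nonneg_right (hcl s) (sub_nonneg.2 b)
            linarith
        have e1 := hosc n (t n) ⟨le_rfl, b⟩ _ m1
        have e2 := hosc n (t (n + 1)) ⟨b, le_rfl⟩ (t n) ⟨le_rfl, b⟩
        have e3 : u (t n) + c s • (u (t (n + 1)) - u (t n)) - u (t n + c s * (t (n + 1) - t n)) =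
            (u (t n) - u (t n + c s * (t (n + 1) - t n))) + c s • (u (t (n + 1)) - u (t n)) := by
          abel
        rw [e3]
        refine (norm_add_le _ _).trans ?_
        rw [norm_smul, Real.norm_eq_abs, abs_of_nonneg (hcn s)]
        have e4 : c s * ‖u (t (n + 1)) - u (t n)‖ ≤ 1 * ρ :=
          mul_le_mul (hcl s) e2 (norm_nonneg _) zero_le_one
        linarith

theorem taskLBVar : TaskLBVar := by
  rintro S _ _ ⟨m, ι, r, K, ρ, hρ, hι, hr, hri⟩
  refine ⟨(K : ℝ) * K + 1, by positivity, fun x y γ L hL => ?_⟩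
  -- fine uniform partition
  have huc : UniformContinuous (fun t : I => ι (γ t)) :=
    CompactSpace.uniformContinuous_of_continuous (hι.continuous.comp γ.continuous)
  obtain ⟨δ, hδ, hosc0⟩ := Metric.uniformContinuous_iff.1 huc (ρ / 3) (by positivity)
  obtain ⟨N, hN⟩ := exists_nat_gt (1 / δ)
  have hN0 : (0 : ℝ) < N := lt_trans (by positivity) hN
  have hNδ : 1 / (N : ℝ) < δ := by
    rw [div_lt_iff₀ hN0]
    rw [div_lt_iff₀ hδ] at hN
    linarith
  set T : ℕ → ℝ := fun j => min ((j : ℝ) / N) 1 with hT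
  have hT0 : ∀ j, 0 ≤ T j := fun j => le_min (by positivity) zero_le_one
  have hT1 : ∀ j, T j ≤ 1 := fun j => min_le_right _ _
  have hTm : Monotone T := by
    intro i j hij
    have : (i : ℝ) ≤ j := by exact_mod_cast hij
    exact min_le_min (div_le_div_of_nonneg_right this hN0.le) le_rfl
  have hTs : ∀ j, T (j + 1) ≤ T j + 1 / N := by
    intro j
    simp only [hT]
    push_cast
    rw [add_div]
    rcases le_total ((j : ℝ) / N) 1 with h | h
    · rw [min_eq_left h]
      exact min_le_left _ _
    · rw [min_eq_right h]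
      refine (min_le_right _ _).trans ?_
      have : (0 : ℝ) < 1 / N := by positivity
      linarith
  have hT00 : T 0 = 0 := by simp [hT]
  have hTN : T N = 1 := by
    simp only [hT]
    rw [div_self hN0.ne', min_self]
  let τ : ℕ → I := fun j => ⟨T j, hT0 j, hT1 j⟩
  have hτ : Monotone τ := fun i j hij => hTm hij
  set u : ℝ → EuclideanSpace ℝ (Fin m) := fun t => ι (γ.extend t) with hu
  have hue : ∀ t : I, u t = ι (γ t) := fun t => by
    simp only [hu]
    rw [γ.extend_apply t.2]
  set d : ℕ → ℝ := fun j => dist (γ (τ (j + 1))) (γ (τ j)) with hd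
  have hsum : ∑ j ∈ range N, d j ≤ L := by
    have h1 := (eVariationOn.sum_le (f := fun t : I => γ t) (s := Set.univ) (n := N) hτ
      (fun _ => Set.mem_univ _)).trans hL
    have h2 : ∑ j ∈ range N, edist (γ (τ (j + 1))) (γ (τ j)) =
        ENNReal.ofReal (∑ j ∈ range N, d j) := by
      rw [ENNReal.ofReal_sum_of_nonneg fun j _ => dist_nonneg]
      exact sum_congr rfl fun j _ => edist_dist _ _
    have h3 : ENNReal.ofReal (∑ j ∈ range N, d j) ≤ (L : ℝ≥0∞) := by
      rw [← h2]
      exact h1
    have h4 := (ENNReal.ofReal_le_iff_le_toReal ENNReal.coe_ne_top).1 h3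
    simpa using h4
  have huτ : ∀ j, u (T j) = ι (γ (τ j)) := fun j => hue (τ j)
  obtain ⟨v, φ, hφ, hv, hv0, hv1, hφm, hcl⟩ := build u T d K (1 / N) (ρ / 3) K.2 (by positivity)
    (by positivity) (fun j => dist_nonneg)
    (fun j => by
      rw [huτ, huτ, ← dist_eq_norm]
      exact hι.dist_le_mul _ _)
    (fun j => hTm (Nat.le_succ j))
    (fun j s hs s' hs' => by
      have a1 : s ∈ I := ⟨(hT0 j).trans hs.1, hs.2.trans (hT1 _)⟩
      have a2 : s' ∈ I := ⟨(hT0 j).trans hs'.1, hs'.2.trans (hT1 _)⟩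
      have a3 : dist (⟨s, a1⟩ : I) ⟨s', a2⟩ < δ := by
        change |s - s'| < δ
        refine lt_of_le_of_lt ?_ hNδ
        rw [abs_le]
        have := hTs j
        constructor <;> linarith [hs.1, hs.2, hs'.1, hs'.2]
      have a4 := hosc0 a3
      have a5 : u s = ι (γ ⟨s, a1⟩) := hue ⟨s, a1⟩
      have a6 : u s' = ι (γ ⟨s', a2⟩) := hue ⟨s', a2⟩
      rw [a5, a6, ← dist_eq_norm]
      exact a4.le) N
  set Λ : ℝ := ∑ j ∈ range N, (d j + 1 / N) with hΛ
  have hΛe : Λ = ∑ j ∈ range N, d j + 1 := by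
    rw [hΛ, sum_add_distrib, sum_const, card_range, nsmul_eq_mul, mul_one_div, div_self hN0.ne']
  have hΛ1 : 1 ≤ Λ := by
    rw [hΛe]
    have : 0 ≤ ∑ j ∈ range N, d j := sum_nonneg fun j _ => dist_nonneg
    linarith
  have hΛL : Λ ≤ L + 1 := by
    rw [hΛe]
    linarith
  -- reparametrisation
  have hφI : ∀ s, φ s ∈ I := fun s => by
    have := hφm s
    rw [hT00, hTN] at this
    exact this
  let f : I → I := fun s => ⟨φ (Λ * s), hφI _⟩
  have hf : Continuous f := by
    refine Continuous.subtype_mk ?_ _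
    exact hφ.comp (continuous_const.mul continuous_subtype_val)
  have hf0 : f 0 = 0 := by
    apply Subtype.ext
    change φ (Λ * ((0 : I) : ℝ)) = ((0 : I) : ℝ)
    rw [Set.Icc.coe_zero, mul_zero, (hv0 0 le_rfl).2, hT00]
  have hf1 : f 1 = 1 := by
    apply Subtype.ext
    change φ (Λ * ((1 : I) : ℝ)) = ((1 : I) : ℝ)
    rw [Set.Icc.coe_one, mul_one, (hv1 Λ le_rfl).2, hTN]
  have hrep : γ.Homotopic (γ.reparam f hf hf0 hf1) := ⟨Path.Homotopy.reparam γ f hf hf0 hf1⟩
  set g : Path x y := γ.reparam f hf hf0 hf1 with hg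
  have hgt : ∀ t : I, ι (g t) = u (φ (Λ * t)) := fun t => (hue (f t)).symm
  set w : ℝ → EuclideanSpace ℝ (Fin m) := fun s => v (Λ * s) with hw
  have hvu' : ∀ t : I, ‖w t - ι (g t)‖ < ρ := fun t => by
    rw [hgt]
    have := hcl (Λ * t)
    refine lt_of_le_of_lt this ?_
    linarith
  have hvc : Continuous v := by
    have : LipschitzWith K v := LipschitzWith.of_dist_le_mul fun a b => by
      rw [dist_eq_norm, Real.dist_eq]
      exact hv a b
    exact this.continuous
  have hwc : Continuous w := hvc.comp (continuous_const.mul continuous_id)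
  have hmem : ∀ t : I, ∀ s : I, ι (g t) + (s : ℝ) • (w t - ι (g t)) ∈
      Metric.thickening ρ (Set.range ι) := by
    intro t s
    rw [Metric.mem_thickening_iff]
    refine ⟨ι (g t), ⟨g t, rfl⟩, ?_⟩
    rw [dist_eq_norm, add_sub_cancel_left, norm_smul, Real.norm_eq_abs, abs_of_nonneg s.2.1]
    calc (s : ℝ) * ‖w t - ι (g t)‖ ≤ 1 * ‖w t - ι (g t)‖ :=
          mul_le_mul_of_nonneg_right s.2.2 (norm_nonneg _)
      _ < ρ := by rw [one_mul]; exact hvu' t
  have hcont : Continuous fun p : I × I =>
      r (ι (g p.2) + (p.1 : ℝ) • (w p.2 - ι (g p.2))) := by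
    have h1 : Continuous fun p : I × I => ι (g p.2) + (p.1 : ℝ) • (w p.2 - ι (g p.2)) := by
      have e1 : Continuous fun p : I × I => ι (g p.2) :=
        hι.continuous.comp (g.continuous.comp continuous_snd)
      have e2 : Continuous fun p : I × I => w p.2 :=
        hwc.comp (continuous_subtype_val.comp continuous_snd)
      exact e1.add ((continuous_subtype_val.comp continuous_fst).smul (e2.sub e1))
    exact hr.continuousOn.comp_continuous h1 fun p => hmem p.2 p.1
  have h0 : w 0 = ι x := by
    simp only [hw]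
    rw [mul_zero, (hv0 0 le_rfl).1, hT00]
    simp [hu]
  have h1 : w 1 = ι y := by
    simp only [hw]
    rw [mul_one, (hv1 Λ le_rfl).1, hTN]
    simp [hu]
  have hv1mem : ∀ t : I, w t ∈ Metric.thickening ρ (Set.range ι) := fun t => by
    have := hmem t 1
    rwa [Set.Icc.coe_one, one_smul, add_sub_cancel] at this
  let γ' : Path x y :=
    { toFun := fun t => r (w t)
      continuous_toFun := by
        have h2 := hcont.comp (Continuous.prodMk (continuous_const (y := (1 : I))) continuous_id)
        refine h2.congr fun t => ?_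
        simp
      source' := by
        simp only [Set.Icc.coe_zero]
        rw [h0, hri]
      target' := by
        simp only [Set.Icc.coe_one]
        rw [h1, hri] }
  refine ⟨γ', hrep.trans ⟨?_⟩, ?_⟩
  · refine
      { toFun := fun p => r (ι (g p.2) + (p.1 : ℝ) • (w p.2 - ι (g p.2)))
        continuous_toFun := hcont
        map_zero_left := fun t => ?_
        map_one_left := fun t => ?_
        prop' := fun s t ht => ?_ }
    · simp [hri]
    · simp only [Set.Icc.coe_one, one_smul, add_sub_cancel]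
      rfl
    · rcases ht with ht | ht
      · subst ht
        change r (ι (g 0) + (s : ℝ) • (w ((0 : I) : ℝ) - ι (g 0))) = g 0
        rw [Set.Icc.coe_zero, h0, g.source, sub_self, smul_zero, add_zero, hri]
      · have ht' : t = 1 := ht
        subst ht'
        change r (ι (g 1) + (s : ℝ) • (w ((1 : I) : ℝ) - ι (g 1))) = g 1
        rw [Set.Icc.coe_one, h1, g.target, sub_self, smul_zero, add_zero, hri]
  · intro s t
    change dist (r (w s)) (r (w t)) ≤ (K * K + 1) * (L + 1) * |(s : ℝ) - t|
    have e1 := hr.dist_le_mul _ (hv1mem s) _ (hv1mem t)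
    have e2 : dist (w s) (w t) ≤ K * (Λ * |(s : ℝ) - t|) := by
      rw [dist_eq_norm]
      refine (hv _ _).trans (le_of_eq ?_)
      rw [← mul_sub, abs_mul, abs_of_nonneg (by linarith : (0 : ℝ) ≤ Λ)]
    calc dist (r (w s)) (r (w t)) ≤ K * dist (w s) (w t) := e1
      _ ≤ K * (K * (Λ * |(s : ℝ) - t|)) := mul_le_mul_of_nonneg_left e2 K.2
      _ = (K * K) * Λ * |(s : ℝ) - t| := by ring
      _ ≤ (K * K + 1) * (L + 1) * |(s : ℝ) - t| := by
        refine mul_le_mul_of_nonneg_right ?_ (abs_nonneg _)
        refine mul_le_mul (by linarith) hΛL (by linarith) (by positivity)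

end Pool.Agent.H337R3.LN
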